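import Pool.Agent.W422.GC.Stms

/-!
GC-ZER: a nonconstant polynomial over the complex numbers has a zero.
-/

set_option autoImplicit false

namespace Pool.Agent.W583.GC.Zer

open MvPolynomial

theorem main : Pool.Agent.W422.GC.S_ZER := by
  intro N f hf
  have hnu : f ∈ nonunits (MvPolynomial (Fin N) ℂ) := by
    intro hu
    obtain ⟨c, -, hc⟩ := MvPolynomial.isUnit_iff_eq_C_of_isReduced.1 hu
    exact hf c hc
  obtain ⟨I, hI, hfI⟩ := exists_max_ideal_of_mem_nonunits hnu
  obtain ⟨x, hx⟩ := isMaximal_iff_eq_vanishingIdeal_singleton.1 hI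
  refine ⟨x, ?_⟩
  rw [hx] at hfI
  have := (mem_vanishingIdeal_singleton_iff x f).1 hfI
  rw [← MvPolynomial.coe_aeval_eq_eval]
  exact this

end Pool.Agent.W583.GC.Zer
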